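/-
In a finite semigroup in which o-conjugacy is a congruence, the quotient is a group; in particular
it is cancellative.
-/
import Mathlib

set_option autoImplicit false

namespace Pool.Agent.Results.MP_393150_al.FiniteGroup

universe u

/-- o-conjugacy: `a ∼ b` iff `a g = g b` and `b h = h a` for some `g, h` in the semigroup. -/
def OConj {S : Type u} [Semigroup S] (a b : S) : Prop :=
  ∃ g h : S, a * g = g * b ∧ b * h = h * a

section

variable {S : Type u} [Semigroup S]

/-- the powers `a ^ (n + 1)` -/
def pw (a : S) : ℕ → S
  | 0 => a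
  | n + 1 => pw a n * a

theorem pw_mul (a : S) (m n : ℕ) : pw a m * pw a n = pw a (m + n + 1) := by
  induction n with
  | zero => rfl
  | succ n ih =>
    change pw a m * (pw a n * a) = pw a (m + n + 1) * a
    rw [← mul_assoc, ih]

/-- a power of an element of a finite semigroup is idempotent -/
theorem exists_idem [Finite S] (a : S) : ∃ n : ℕ, pw a n * pw a n = pw a n := by
  obtain ⟨i, j, hij, h⟩ := Finite.exists_ne_map_eq_of_infinite (pw a)
  wlog hlt : i < j generalizing i j with H
  · exact H j i hij.symm h.symm (lt_of_le_of_ne (not_lt.1 hlt) hij.symm)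
  obtain ⟨d, hd⟩ : ∃ d, j = i + (d + 1) := ⟨j - i - 1, by omega⟩
  have h1 : ∀ k, pw a (i + k + (d + 1)) = pw a (i + k) := by
    intro k
    induction k with
    | zero =>
      rw [add_zero, ← hd, ← h]
    | succ k ih =>
      have e1 : i + (k + 1) + (d + 1) = (i + k + (d + 1)) + 1 := by ring
      rw [e1]
      change pw a (i + k + (d + 1)) * a = pw a (i + k) * a
      rw [ih]
  have h2 : ∀ t k, pw a (i + k + t * (d + 1)) = pw a (i + k) := by
    intro t k
    induction t with
    | zero => simp
    | succ t ih =>
      have e1 : i + k + (t + 1) * (d + 1) = i + (k + t * (d + 1)) + (d + 1) := by ring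
      rw [e1, h1, ← add_assoc, ih]
  refine ⟨i + i * d + d, ?_⟩
  rw [pw_mul]
  have e2 : i + i * d + d + (i + i * d + d) + 1 = i + (i * d + d) + (i + 1) * (d + 1) := by ring
  have e3 : i + i * d + d = i + (i * d + d) := by ring
  rw [e2, h2, e3]

/-- every element `a` of a finite semigroup has an idempotent `e` commuting with it and an element
`b` with `a b = b a = e` -/
theorem exists_inv [Finite S] (a : S) : ∃ e b : S, e * e = e ∧ a * e = e * a ∧ a * b = e ∧
    b * a = e := by
  obtain ⟨n, hn⟩ := exists_idem a
  refine ⟨pw a n, pw a (n + n), hn, ?_, ?_, ?_⟩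
  · change pw a 0 * pw a n = pw a n * pw a 0
    rw [pw_mul, pw_mul]
    congr 1
    ring
  · change pw a 0 * pw a (n + n) = pw a n
    rw [pw_mul, ← hn, pw_mul]
    congr 1
    ring
  · change pw a (n + n) * pw a 0 = pw a n
    rw [pw_mul, ← hn, pw_mul]

theorem idem_conj {e f : S} (he : e * e = e) (hf : f * f = f) : OConj e f := by
  refine ⟨e * f, f * e, ?_, ?_⟩
  · rw [← mul_assoc, he, mul_assoc, hf]
  · rw [← mul_assoc, hf, mul_assoc, he]

end

/-- **Main theorem.** If `S` is a finite semigroup and the congruence `c` on `S` is o-conjugacy,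
then the quotient semigroup `S / c` is cancellative on both sides. -/
theorem result : ∀ (S : Type u) [Semigroup S] [Finite S] (c : Con S),
    (∀ a b : S, c a b ↔ OConj a b) →
      (∀ x y z : c.Quotient, x * y = x * z → y = z) ∧
      (∀ x y z : c.Quotient, y * x = z * x → y = z) := by
  intro S _ _ c hc
  have key : ∀ x : c.Quotient, ∃ o y : c.Quotient, x * y = o ∧ y * x = o ∧
      ∀ z : c.Quotient, o * z = z ∧ z * o = z := by
    intro x
    induction x using Con.induction_on with
    | H a =>
      obtain ⟨e, b, he, -, hab, hba⟩ := exists_inv a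
      refine ⟨(e : c.Quotient), (b : c.Quotient), ?_, ?_, ?_⟩
      · rw [← Con.coe_mul, hab]
      · rw [← Con.coe_mul, hba]
      · intro z
        induction z using Con.induction_on with
        | H a' =>
          obtain ⟨f, b', hf, haf, -, -⟩ := exists_inv a'
          have hef : (e : c.Quotient) = (f : c.Quotient) :=
            c.eq.2 ((hc _ _).2 (idem_conj he hf))
          have h1 : ((f * a' : S) : c.Quotient) = (a' : c.Quotient) := by
            rw [c.eq, hc]
            refine ⟨f, f, ?_, ?_⟩
            · rw [mul_assoc, haf, ← mul_assoc, hf]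
            · rw [haf, ← mul_assoc, hf]
          constructor
          · rw [hef, ← Con.coe_mul, h1]
          · rw [hef, ← Con.coe_mul, haf, h1]
  constructor
  · intro x y z h
    obtain ⟨o, x', -, h2, h3⟩ := key x
    calc y = x' * x * y := by rw [h2, (h3 y).1]
      _ = x' * x * z := by rw [mul_assoc, h, mul_assoc]
      _ = z := by rw [h2, (h3 z).1]
  · intro x y z h
    obtain ⟨o, x', h1, -, h3⟩ := key x
    calc y = y * (x * x') := by rw [h1, (h3 y).2]
      _ = z * (x * x') := by rw [← mul_assoc, h, mul_assoc]
      _ = z := by rw [h1, (h3 z).2]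

end Pool.Agent.Results.MP_393150_al.FiniteGroup
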